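import Pool.Agent.H41.AUG.Stmts2

/-!
# AUG2, the arithmetic lemma
-/

set_option autoImplicit false

namespace Pool.Agent.H241.AUG

open Pool.Agent.H41.AUG

/-- One side: `a ≥ e + m`. -/
theorem side (e k m a p : ℤ) (he : 2 ≤ e) (hm : 1 ≤ m)
    (hA : e + m ≤ a + p) (hAk : a + p ≤ k + e) (hk : k < e)
    (h1 : p * (e - 1) ≤ (a + p) * (a + p - m - e)) (h2 : a * (e + m - a) ≤ p) : e + m ≤ a := by
  by_contra hcon
  push Not at hcon
  rcases le_or_gt 2 a with h | h
  · have h3 : (a - 1) * (e + m - a) ≤ a + p - m - e := by nlinarith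
    have h4 : 0 ≤ (e + m - a - 1) * (a - 2) := mul_nonneg (by linarith) (by linarith)
    nlinarith
  · have h3 : (a + p - 1) * (e - 1) ≤ p * (e - 1) :=
      mul_le_mul_of_nonneg_right (by linarith) (by linarith)
    have h4 : (a + p) * (a + p - m - e) ≤ (a + p) * (e - 2) :=
      mul_le_mul_of_nonneg_left (by linarith) (by linarith)
    nlinarith

/-- The lower bound for `P` from one side. -/
theorem fin (e k m a b p P : ℤ) (he : 2 ≤ e) (hm : 1 ≤ m)
    (hAk : a + p ≤ k + e) (ha : e + m ≤ a) (hab : a ≤ b)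
    (h : a * (b - a + e + m) - p ≤ P) : (e + 1) * (e + 1) + 1 - k ≤ P := by
  have h1 : a * (e + m) ≤ a * (b - a + e + m) :=
    mul_le_mul_of_nonneg_left (by linarith) (by linarith)
  have h2 : (e + m) * (e + m) ≤ a * (e + m) :=
    mul_le_mul_of_nonneg_right (by linarith) (by linarith)
  nlinarith

theorem arith2 : S_ARITH2 := by
  intro e k m a b p q P he hm ha hb hp hq hA hB hk hke h1 h2 h3 h4 h5 h6
  have ha' := side e k m a p he hm hA (by linarith) hke h1 h3
  have hb' := side e k m b q he hm hB (by linarith) hke h2 h4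
  rcases le_total a b with h | h
  · exact fin e k m a b p P he hm (by linarith) ha' h h5
  · exact fin e k m b a q P he hm (by linarith) hb' h h6

end Pool.Agent.H241.AUG
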